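import Pool.Agent.Lib_MP_d26ff6_al.Defs

/-!
# Closed subgroups of quaternionic structures: basic facts (helper29)

`V x = {y | q x y = 0}`, the subgroup `Gb` spanned by the `V s`, `s` a slot of `b`.
-/

set_option autoImplicit false

namespace Pool.Agent.ETCC

open QS

variable (S : QStruct)

theorem inv_eq (a : S.G) : a⁻¹ = a := by
  rw [inv_eq_iff_mul_eq_one, S.exp_two]

/-- the annihilator of `x` -/
def V (x : S.G) : Subgroup S.G where
  carrier := {y | S.q x y = S.zero}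
  one_mem' := S.q_one x
  mul_mem' := by
    intro a b ha hb
    have h : S.q x a = S.q x b := by
      rw [show S.q x a = S.zero from ha, show S.q x b = S.zero from hb]
    exact (S.qs3 x a b).1 h
  inv_mem' := by
    intro a ha
    rw [inv_eq S a]
    exact ha

variable {S}

theorem mem_V {x y : S.G} : y ∈ V S x ↔ S.q x y = S.zero := Iff.rfl

theorem mem_V_comm {x y : S.G} : y ∈ V S x ↔ x ∈ V S y := by
  rw [mem_V, mem_V, S.qs2]

theorem neg_mul_mem (x : S.G) : S.neg * x ∈ V S x := S.qs1 x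

theorem q_eq_iff {x y z : S.G} : S.q x y = S.q x z ↔ y * z ∈ V S x := S.qs3 x y z

theorem mul_self_mul (a b : S.G) : a * (a * b) = b := by
  rw [← mul_assoc, S.exp_two, one_mul]

theorem q_eq_mul {x y g : S.G} (hg : g ∈ V S x) : S.q x (y * g) = S.q x y := by
  rw [q_eq_iff, mul_comm, mul_self_mul]
  exact hg

theorem link {a b c d : S.G} (h : S.q a b = S.q c d) :
    ∃ t, S.q a t = S.q a b ∧ S.q c t = S.q a b := by
  obtain ⟨x, h1, h2⟩ := S.qs4 a b c d h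
  exact ⟨x, h1.symm, by rw [← h2, h]⟩

/-- the subgroup generated by the annihilators of the slots of `b` -/
def Gb (b : S.Q) (hb : ∃ s u : S.G, S.q s u = b) : Subgroup S.G where
  carrier := {g | ∃ s : S.G, (∃ u, S.q s u = b) ∧ g ∈ V S s}
  one_mem' := by
    obtain ⟨s, u, h⟩ := hb
    exact ⟨s, ⟨u, h⟩, (V S s).one_mem⟩
  mul_mem' := by
    rintro g1 g2 ⟨s1, ⟨u1, h1⟩, hg1⟩ ⟨s2, ⟨u2, h2⟩, hg2⟩
    obtain ⟨t, ht1, ht2⟩ := link (h1.trans h2.symm)
    have e1 : S.q (t * g1) s1 = b := by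
      rw [S.qs2, q_eq_mul hg1, ht1, h1]
    have e2 : S.q (t * g2) s2 = b := by
      rw [S.qs2, q_eq_mul hg2, ht2, h1]
    obtain ⟨t', ht1', ht2'⟩ := link (e1.trans e2.symm)
    refine ⟨t', ⟨t * g1, by rw [S.qs2, ht1', e1]⟩, ?_⟩
    have e3 : S.q t' (t * g1) = S.q t' (t * g2) := by
      rw [S.qs2 t', ht1', S.qs2 t', ht2']
    rw [q_eq_iff] at e3
    have e4 : t * g1 * (t * g2) = g1 * g2 := by
      calc t * g1 * (t * g2) = (t * t) * (g1 * g2) := by ac_rfl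
        _ = g1 * g2 := by rw [S.exp_two, one_mul]
    rwa [e4] at e3
  inv_mem' := by
    rintro g ⟨s, hs, hg⟩
    rw [inv_eq S g]
    exact ⟨s, hs, hg⟩

theorem mem_Gb {b : S.Q} {hb : ∃ s u : S.G, S.q s u = b} {g : S.G} :
    g ∈ Gb b hb ↔ ∃ s : S.G, (∃ u, S.q s u = b) ∧ g ∈ V S s := Iff.rfl

/-- covering of `Gb` -/
theorem cover {b : S.Q} {hb : ∃ s u : S.G, S.q s u = b} {p y : S.G} (hp : S.q p y = b) {w : S.G}
    (hw : w ∈ Gb b hb) : ∃ h ∈ V S p, ∃ z, S.q p z = b ∧ S.q (w * h) z = S.zero := by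
  obtain ⟨s, ⟨u, hu⟩, hws⟩ := hw
  obtain ⟨t, ht1, ht2⟩ := link (hp.trans hu.symm)
  rw [hp] at ht1 ht2
  have e1 : S.q (t * w) s = b := by
    rw [S.qs2, q_eq_mul hws, ht2]
  obtain ⟨z, hz1, hz2⟩ := link (hp.trans e1.symm)
  rw [hp] at hz1 hz2
  -- `p * (t * w) ∈ V z`
  have e2 : p * (t * w) ∈ V S z := by
    rw [← q_eq_iff, S.qs2, hz1, S.qs2, hz2]
  have e3 : t * z ∈ V S p := by
    rw [← q_eq_iff, ht1, hz1]
  refine ⟨S.neg * p * (t * z), (V S p).mul_mem (neg_mul_mem p) e3, z, hz1, ?_⟩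
  have e4 : w * (S.neg * p * (t * z)) = p * (t * w) * (S.neg * z) := by ac_rfl
  rw [e4, S.qs2]
  exact (V S z).mul_mem e2 (neg_mul_mem z)

end Pool.Agent.ETCC
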