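import Pool.Agent.ETCC.Basic

/-!
# Closed subgroups of quaternionic structures: the counting argument (helper29)
-/

set_option autoImplicit false

namespace Pool.Agent.ETCC

open QS

variable {S : QStruct}

/-- the situation: `H` closed, `p ∈ H`, `y ∉ H` -/
structure Sit (S : QStruct) (H : Subgroup S.G) (p y : S.G) : Prop where
  closed : ∀ x ∈ H, x ≠ 1 → ∀ z, S.q x z = S.zero → z ∈ H
  hp : p ∈ H
  hp1 : p ≠ 1
  hy : y ∉ H

namespace Sit

variable {H : Subgroup S.G} {p y : S.G}

theorem negH (s : Sit S H p y) : S.neg ∈ H := by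
  have h := s.closed p s.hp s.hp1 (S.neg * p) (S.qs1 p)
  have := H.mul_mem h s.hp
  rwa [mul_assoc, S.exp_two, mul_one] at this

theorem VpH (s : Sit S H p y) {h : S.G} (hh : h ∈ V S p) : h ∈ H := s.closed p s.hp s.hp1 h hh

theorem zN (s : Sit S H p y) {z : S.G} (hz : S.q p z = S.q p y) : y * z ∈ V S p :=
  q_eq_iff.1 hz.symm

theorem zH (s : Sit S H p y) {z : S.G} (hz : S.q p z = S.q p y) : z ∉ H := by
  intro h
  apply s.hy
  have h1 := s.VpH (s.zN hz)
  have := H.mul_mem h1 h
  rwa [mul_assoc, S.exp_two, mul_one] at this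

/-- an element outside `H` commutes with nothing in `H` except `1` -/
theorem out (s : Sit S H p y) {z a : S.G} (hz : z ∉ H) (ha : a ∈ H) (h : S.q a z = S.zero) :
    a = 1 := by
  by_contra h1
  exact hz (s.closed a ha h1 z h)

theorem b_ne (s : Sit S H p y) : S.q p y ≠ S.zero := fun h => s.hp1 (s.out s.hy s.hp h)

/-- the case `a ∈ H` -/
theorem caseA (s : Sit S H p y) {a z : S.G} (hz : S.q p z = S.q p y) (h : S.q a z = S.zero)
    (ha : a ∈ H) : a = 1 := s.out (s.zH hz) ha h

/-- the case `a ∈ y H` -/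
theorem caseB (s : Sit S H p y) {a z : S.G} (hz : S.q p z = S.q p y) (h : S.q a z = S.zero)
    (ha : y * a ∈ H) : a = S.neg * z := by
  have h1 : S.neg * z * a ∈ V S z := (V S z).mul_mem (neg_mul_mem z) (mem_V_comm.1 h)
  have h2 : S.neg * z * a ∈ H := by
    have e : S.neg * z * a = S.neg * (y * z) * (y * a) := by
      calc S.neg * z * a = S.neg * (y * y) * z * a := by rw [S.exp_two, mul_one]
        _ = _ := by ac_rfl
    rw [e]
    exact H.mul_mem (H.mul_mem s.negH (s.VpH (s.zN hz))) ha
  have h3 : S.neg * z * a = 1 := s.out (s.zH hz) h2 (mem_V_comm.1 h1)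
  calc a = (S.neg * z) * (S.neg * z * a) := by rw [mul_self_mul]
    _ = S.neg * z := by rw [h3, mul_one]

/-- the generic case: uniqueness -/
theorem uniq (s : Sit S H p y) {a a' z z' : S.G} (hz : S.q p z = S.q p y)
    (hz' : S.q p z' = S.q p y) (h : S.q a z = S.zero) (h' : S.q a' z' = S.zero)
    (haa : a * a' ∈ V S p) (haH : a ∉ H) (hyaH : y * a ∉ H) : a = a' ∧ z = z' := by
  have e0 : z * z' ∈ V S p := by
    have := (V S p).mul_mem (s.zN hz) (s.zN hz')
    have e : y * z * (y * z') = z * z' := by
      calc y * z * (y * z') = (y * y) * (z * z') := by ac_rfl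
        _ = _ := by rw [S.exp_two, one_mul]
    rwa [e] at this
  by_cases hzz : z = z'
  · subst hzz
    refine ⟨?_, rfl⟩
    have h1 : a * a' ∈ V S z := (V S z).mul_mem (mem_V_comm.1 h) (mem_V_comm.1 h')
    have h2 : a * a' = 1 := s.out (s.zH hz) (s.VpH haa) (mem_V_comm.1 h1)
    exact (eq_iff_mul S a a').2 h2
  · exfalso
    have he1 : z * z' ≠ 1 := fun h1 => hzz ((eq_iff_mul S z z').2 h1)
    have heH : z * z' ∈ H := s.VpH e0
    by_cases haa1 : a = a'
    · subst haa1
      -- `a` commutes with `z z' ∈ H`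
      have h1 : z * z' ∈ V S a := (V S a).mul_mem h h'
      exact haH (s.closed _ heH he1 a (mem_V_comm.1 h1))
    · have hd1 : a * a' ≠ 1 := fun h1 => haa1 ((eq_iff_mul S a a').2 h1)
      have hdH : a * a' ∈ H := s.VpH haa
      -- `q (a, z') = q (a, z z')`
      have e1 : S.q a z' = S.q a (z * z') := by
        rw [q_eq_iff]
        have e : z' * (z * z') = z := by
          calc z' * (z * z') = z * (z' * z') := by ac_rfl
            _ = z := by rw [S.exp_two, mul_one]
        rw [e]
        exact h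
      -- `q (z', a) = q (z', a a')`
      have e2 : S.q z' a = S.q z' (a * a') := by
        rw [q_eq_iff, mul_self_mul]
        exact mem_V_comm.1 h'
      have e3 : S.q (z * z') a = S.q (a * a') z' := by
        rw [S.qs2 (z * z') a, ← e1, S.qs2 a z', e2, S.qs2]
      by_cases hde : a * a' = z * z'
      · rw [hde] at e3
        have h1 : a * z' ∈ V S (z * z') := q_eq_iff.1 e3
        have h2 : a * z' ∈ H := s.closed _ heH he1 _ h1
        apply hyaH
        have h3 : y * z' ∈ H := s.VpH (s.zN hz')
        have := H.mul_mem h3 h2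
        have e : y * z' * (a * z') = y * a := by
          calc y * z' * (a * z') = y * a * (z' * z') := by ac_rfl
            _ = _ := by rw [S.exp_two, mul_one]
        rwa [e] at this
      · obtain ⟨t, ht1, ht2⟩ := link e3
        have h1 : (z * z') * (a * a') ∈ V S t := by
          rw [← q_eq_iff, S.qs2 t, ht1, S.qs2 t, ht2]
        have h2 : (z * z') * (a * a') ≠ 1 := fun h3 =>
          hde ((eq_iff_mul S _ _).2 h3).symm
        have h4 : t ∈ H := s.closed _ (H.mul_mem heH hdH) h2 t (mem_V_comm.1 h1)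
        have h5 : t * a ∈ V S (z * z') := q_eq_iff.1 ht1
        have h6 := H.mul_mem h4 (s.closed _ heH he1 _ h5)
        rw [mul_self_mul] at h6
        exact haH h6

end Sit

end Pool.Agent.ETCC
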