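import Pool.Agent.ETCC.Count

/-!
# Closed subgroups of quaternionic structures: the counting identity (helper29)
-/

set_option autoImplicit false

namespace Pool.Agent.ETCC

open QS

variable {S : QStruct}

open Classical in
theorem count [Fintype S.G] {H : Subgroup S.G} {p y : S.G} (s : Sit S H p y)
    (hb : ∃ a u : S.G, S.q a u = S.q p y) :
    ∃ m : ℕ,
      (∑ z ∈ Finset.univ.filter (fun z : S.G => S.q p z = S.q p y),
        (Finset.univ.filter fun a : S.G => a ∈ V S z).card) =
        2 * (Finset.univ.filter fun h : S.G => h ∈ V S p).card + m ∧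
      (Finset.univ.filter fun g : S.G => g ∈ Gb (S.q p y) hb).card =
        m * (Finset.univ.filter fun h : S.G => h ∈ V S p).card +
        2 * (Finset.univ.filter fun h : S.G => h ∈ V S p).card := by
  set N : Finset S.G := Finset.univ.filter (fun z : S.G => S.q p z = S.q p y) with hN
  set Vp : Finset S.G := Finset.univ.filter (fun h : S.G => h ∈ V S p) with hVp
  set GG : Finset S.G := Finset.univ.filter (fun g : S.G => g ∈ Gb (S.q p y) hb) with hGG
  set T : Finset (S.G × S.G) := Finset.univ.filter
    (fun az : S.G × S.G => S.q p az.2 = S.q p y ∧ S.q az.1 az.2 = S.zero) with hT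
  have mN : ∀ z, z ∈ N ↔ S.q p z = S.q p y := fun z => by simp [hN]
  have mVp : ∀ h, h ∈ Vp ↔ h ∈ V S p := fun z => by simp [hVp]
  have mGG : ∀ g, g ∈ GG ↔ g ∈ Gb (S.q p y) hb := fun z => by simp [hGG]
  have mT : ∀ a z, (a, z) ∈ T ↔ S.q p z = S.q p y ∧ S.q a z = S.zero := fun a z => by simp [hT]
  -- the number of `z`
  have cN : N.card = Vp.card := by
    refine Finset.card_bij (fun z _ => y * z) ?_ ?_ ?_
    · intro z hz
      rw [mVp]
      exact s.zN ((mN z).1 hz)
    · intro a _ b _ h
      exact mul_left_cancel h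
    · intro h hh
      refine ⟨y * h, ?_, mul_self_mul y h⟩
      rw [mN, q_eq_mul ((mVp h).1 hh)]
  -- the sum is the number of pairs
  have cT : (∑ z ∈ N, (Finset.univ.filter fun a : S.G => a ∈ V S z).card) = T.card := by
    rw [Finset.card_eq_sum_card_fiberwise (f := Prod.snd) (s := T) (t := N)]
    · refine Finset.sum_congr rfl fun z hz => ?_
      refine Finset.card_bij (fun a _ => (a, z)) ?_ ?_ ?_
      · intro a ha
        rw [Finset.mem_filter] at ha ⊢
        refine ⟨(mT a z).2 ⟨(mN z).1 hz, ?_⟩, rfl⟩
        exact mem_V_comm.1 ha.2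
      · intro a _ b _ h
        exact (Prod.ext_iff.1 h).1
      · rintro ⟨a, z'⟩ h
        rw [Finset.mem_filter] at h
        obtain ⟨h1, h2⟩ := h
        change z' = z at h2
        subst h2
        refine ⟨a, ?_, rfl⟩
        rw [Finset.mem_filter]
        exact ⟨Finset.mem_univ _, mem_V_comm.1 ((mT a z').1 h1).2⟩
    · rintro ⟨a, z⟩ h
      exact (mN z).2 ((mT a z).1 h).1
  -- the three parts
  set T0 := T.filter (fun az => az.1 ∈ H) with hT0
  set T1 := T.filter (fun az => az.1 ∉ H ∧ y * az.1 ∈ H) with hT1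
  set T2 := T.filter (fun az => az.1 ∉ H ∧ y * az.1 ∉ H) with hT2
  have c0 : T0.card = N.card := by
    symm
    refine Finset.card_bij (fun z _ => ((1 : S.G), z)) ?_ ?_ ?_
    · intro z hz
      rw [hT0, Finset.mem_filter]
      refine ⟨(mT 1 z).2 ⟨(mN z).1 hz, ?_⟩, H.one_mem⟩
      rw [S.qs2, S.q_one]
    · intro a _ b _ h
      exact (Prod.ext_iff.1 h).2
    · rintro ⟨a, z⟩ h
      rw [hT0, Finset.mem_filter] at h
      obtain ⟨h1, h2⟩ := h
      rw [mT] at h1
      refine ⟨z, (mN z).2 h1.1, ?_⟩
      rw [s.caseA h1.1 h1.2 h2]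
  have c1 : T1.card = N.card := by
    symm
    refine Finset.card_bij (fun z _ => (S.neg * z, z)) ?_ ?_ ?_
    · intro z hz
      rw [mN] at hz
      rw [hT1, Finset.mem_filter]
      refine ⟨(mT _ z).2 ⟨hz, mem_V_comm.1 (neg_mul_mem z)⟩, ?_, ?_⟩
      · intro h
        have := H.mul_mem s.negH h
        rw [mul_self_mul] at this
        exact s.zH hz this
      · have h1 := H.mul_mem s.negH (s.VpH (s.zN hz))
        rwa [show S.neg * (y * z) = y * (S.neg * z) by ac_rfl] at h1
    · intro a _ b _ h
      exact (Prod.ext_iff.1 h).2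
    · rintro ⟨a, z⟩ h
      rw [hT1, Finset.mem_filter] at h
      obtain ⟨h1, -, h2⟩ := h
      rw [mT] at h1
      refine ⟨z, (mN z).2 h1.1, ?_⟩
      rw [← s.caseB h1.1 h1.2 h2]
  have c2 : T.card = T0.card + T1.card + T2.card := by
    have e1 : T.card = T0.card + (T.filter (fun az => ¬ az.1 ∈ H)).card :=
      (Finset.card_filter_add_card_filter_not (s := T) (fun az => az.1 ∈ H)).symm
    have e2 : (T.filter (fun az => ¬ az.1 ∈ H)).card = T1.card + T2.card := by
      have := (Finset.card_filter_add_card_filter_not (s := T.filter (fun az => ¬ az.1 ∈ H))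
        (fun az => y * az.1 ∈ H)).symm
      have f1 : (T.filter (fun az => ¬ az.1 ∈ H)).filter (fun az => y * az.1 ∈ H) = T1 := by
        rw [hT1]
        exact Finset.filter_filter _ _ _
      have f2 : (T.filter (fun az => ¬ az.1 ∈ H)).filter (fun az => ¬ y * az.1 ∈ H) = T2 := by
        rw [hT2]
        exact Finset.filter_filter _ _ _
      rw [f1, f2] at this
      exact this
    rw [e1, e2, add_assoc]
  -- the generic part
  set D := GG.filter (fun w => w ∉ V S p ∧ S.neg * y * w ∉ V S p) with hD
  have cD : T2.card * Vp.card = D.card := by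
    rw [← Finset.card_product]
    refine Finset.card_bij (fun x _ => x.1.1 * x.2) ?_ ?_ ?_
    · rintro ⟨⟨a, z⟩, h⟩ hx
      rw [Finset.mem_product] at hx
      obtain ⟨h1, h2⟩ := hx
      change (a, z) ∈ T2 at h1
      change h ∈ Vp at h2
      rw [hT2, Finset.mem_filter, mT] at h1
      rw [mVp] at h2
      obtain ⟨⟨h3, h4⟩, h5, h6⟩ := h1
      change a ∉ H at h5
      change y * a ∉ H at h6
      rw [hD, Finset.mem_filter, mGG]
      refine ⟨?_, ?_, ?_⟩
      · refine (Gb _ hb).mul_mem ?_ ?_
        · exact ⟨z, ⟨p, by rw [S.qs2, h3]⟩, mem_V_comm.1 h4⟩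
        · exact ⟨p, ⟨y, rfl⟩, h2⟩
      · intro h7
        have h8 := (V S p).mul_mem h7 h2
        rw [mul_assoc, S.exp_two, mul_one] at h8
        exact h5 (s.VpH h8)
      · intro h7
        have h8 := (V S p).mul_mem h7 h2
        rw [show S.neg * y * (a * h) * h = S.neg * y * a * (h * h) by ac_rfl, S.exp_two,
          mul_one] at h8
        have h9 := H.mul_mem s.negH (s.VpH h8)
        rw [show S.neg * (S.neg * y * a) = S.neg * S.neg * (y * a) by ac_rfl, S.exp_two,
          one_mul] at h9
        exact h6 h9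
    · rintro ⟨⟨a, z⟩, h⟩ hx ⟨⟨a', z'⟩, h'⟩ hx' he
      rw [Finset.mem_product] at hx hx'
      obtain ⟨h1, h2⟩ := hx
      obtain ⟨h1', h2'⟩ := hx'
      change (a, z) ∈ T2 at h1
      change h ∈ Vp at h2
      change (a', z') ∈ T2 at h1'
      change h' ∈ Vp at h2'
      rw [hT2, Finset.mem_filter, mT] at h1 h1'
      rw [mVp] at h2 h2'
      obtain ⟨⟨h3, h4⟩, h5, h6⟩ := h1
      obtain ⟨⟨h3', h4'⟩, -, -⟩ := h1'
      change a * h = a' * h' at he
      have haa : a * a' ∈ V S p := by
        have e : a * a' = h * h' := by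
          have e1 : a = a' * h' * h := by
            rw [← he, mul_assoc, S.exp_two, mul_one]
          rw [e1]
          calc a' * h' * h * a' = (a' * a') * (h * h') := by ac_rfl
            _ = h * h' := by rw [S.exp_two, one_mul]
        rw [e]
        exact (V S p).mul_mem h2 h2'
      obtain ⟨r1, r2⟩ := s.uniq h3 h3' h4 h4' haa h5 h6
      subst r1
      subst r2
      have : h = h' := mul_left_cancel he
      rw [this]
    · intro w hw
      rw [hD, Finset.mem_filter, mGG] at hw
      obtain ⟨h1, h2, h3⟩ := hw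
      obtain ⟨h, hh, z, hz, h4⟩ := cover (p := p) (y := y) rfl h1
      refine ⟨((w * h, z), h), ?_, ?_⟩
      · rw [Finset.mem_product]
        refine ⟨?_, (mVp h).2 hh⟩
        change (w * h, z) ∈ T2
        rw [hT2, Finset.mem_filter, mT]
        refine ⟨⟨hz, h4⟩, ?_, ?_⟩
        · change w * h ∉ H
          intro h5
          have h6 := s.caseA hz h4 h5
          apply h2
          have : w = h := (eq_iff_mul S w h).2 h6
          rw [this]
          exact hh
        · change y * (w * h) ∉ H
          intro h5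
          have h6 := s.caseB hz h4 h5
          apply h3
          have h7 : w = S.neg * z * h := by
            rw [← h6, mul_assoc, S.exp_two, mul_one]
          rw [h7, show S.neg * y * (S.neg * z * h) = (S.neg * S.neg) * ((y * z) * h) by ac_rfl,
            S.exp_two, one_mul]
          exact (V S p).mul_mem (s.zN hz) hh
      · change w * h * h = w
        rw [mul_assoc, S.exp_two, mul_one]
  have cG : GG.card = D.card + 2 * Vp.card := by
    have e1 : GG.card = (GG.filter (fun w => w ∈ V S p)).card +
        (GG.filter (fun w => ¬ w ∈ V S p)).card :=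
      (Finset.card_filter_add_card_filter_not (s := GG) (fun w => w ∈ V S p)).symm
    have e2 : (GG.filter (fun w => ¬ w ∈ V S p)).card =
        ((GG.filter (fun w => ¬ w ∈ V S p)).filter (fun w => S.neg * y * w ∈ V S p)).card +
        D.card := by
      have := (Finset.card_filter_add_card_filter_not (s := GG.filter (fun w => ¬ w ∈ V S p))
        (fun w => S.neg * y * w ∈ V S p)).symm
      have f2 : (GG.filter (fun w => ¬ w ∈ V S p)).filter (fun w => ¬ S.neg * y * w ∈ V S p) =
          D := by
        rw [hD]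
        exact Finset.filter_filter _ _ _
      rw [this, f2]
    have e3 : (GG.filter (fun w => w ∈ V S p)).card = Vp.card := by
      congr 1
      ext w
      rw [Finset.mem_filter, mVp, mGG]
      constructor
      · exact fun h => h.2
      · exact fun h => ⟨⟨p, ⟨y, rfl⟩, h⟩, h⟩
    have e4 : ((GG.filter (fun w => ¬ w ∈ V S p)).filter
        (fun w => S.neg * y * w ∈ V S p)).card = Vp.card := by
      refine Finset.card_bij (fun w _ => S.neg * y * w) ?_ ?_ ?_
      · intro w hw
        rw [Finset.mem_filter] at hw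
        exact (mVp _).2 hw.2
      · intro a _ b _ h
        exact mul_left_cancel h
      · intro h hh
        rw [mVp] at hh
        refine ⟨S.neg * y * h, ?_, mul_self_mul _ _⟩
        rw [Finset.mem_filter, Finset.mem_filter, mGG, mul_self_mul]
        refine ⟨⟨?_, ?_⟩, hh⟩
        · refine (Gb _ hb).mul_mem ?_ ⟨p, ⟨y, rfl⟩, hh⟩
          exact ⟨y, ⟨p, S.qs2 _ _⟩, neg_mul_mem y⟩
        · intro h1
          have h2 := H.mul_mem (H.mul_mem (s.VpH h1) (s.VpH hh)) s.negH
          apply s.hy
          have e : S.neg * y * h * h * S.neg = y * (h * h) * (S.neg * S.neg) := by ac_rfl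
          rw [e, S.exp_two, S.exp_two, mul_one, mul_one] at h2
          exact h2
    rw [e1, e2, e3, e4]
    ring
  refine ⟨T2.card, ?_, ?_⟩
  · rw [cT, c2, c0, c1, cN]
    ring
  · rw [cG, ← cD]

end Pool.Agent.ETCC
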