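import Pool.Agent.ETCC.Parity

/-!
# Closed subgroups of quaternionic structures: existence of birigid elements (helper29)
-/

set_option autoImplicit false

namespace Pool.Agent.ETCC

open QS

variable {S : QStruct}

/-- `z` and `-z` are rigid and `z` is not `1` or `-1` -/
structure Bir (S : QStruct) (z : S.G) : Prop where
  n1 : z ≠ 1
  n2 : z ≠ S.neg
  r1 : Rig S z
  r2 : Rig S (S.neg * z)

theorem Bir.negz {z : S.G} (h : Bir S z) : Bir S (S.neg * z) := by
  refine ⟨?_, ?_, h.r2, ?_⟩
  · intro h1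
    exact h.n2 ((eq_iff_mul S S.neg z).2 h1).symm
  · intro h1
    apply h.n1
    have : S.neg * (S.neg * z) = S.neg * S.neg := by rw [h1]
    rwa [mul_self_mul, S.exp_two] at this
  · rw [mul_self_mul]
    exact h.r1

/-- more than two commuting elements in `H` make everything outside rigid -/
theorem case_one [Finite S.G] {H : Subgroup S.G} {p y : S.G} (s : Sit S H p y)
    (hp2 : p ≠ S.neg) (hk : 2 < Nat.card (V S p)) : Rig S y := by
  classical
  letI := Fintype.ofFinite S.G
  rcases rule3 s (by omega) with h | h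
  · exact h y rfl
  · exfalso
    set W := Finset.univ.filter (fun z : S.G => S.q p z = S.q p y ∧ Rig S z) with hW
    have hmem : ∀ z, z ∈ W → S.neg * p * z ∈ W := by
      intro z hz
      rw [hW, Finset.mem_filter] at hz ⊢
      have sz : Sit S H p z := ⟨s.closed, s.hp, s.hp1, s.zH hz.2.1⟩
      refine ⟨Finset.mem_univ _, ?_, rule2 sz hz.2.2 hk⟩
      rw [S.q_neg_mul]
      exact hz.2.1
    have h0 : ∑ z ∈ W, (1 : ZMod 2) = 0 := by
      refine Finset.sum_involution (fun z _ => S.neg * p * z) ?_ ?_ ?_ ?_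
      · intro z _
        decide
      · intro z _ _ h1
        apply hp2
        have h2 : S.neg * p = 1 := by
          calc S.neg * p = S.neg * p * z * z := by rw [mul_assoc (S.neg * p), S.exp_two, mul_one]
            _ = z * z := by rw [h1]
            _ = 1 := S.exp_two z
        exact ((eq_iff_mul S S.neg p).2 h2).symm
      · intro z hz
        exact hmem z hz
      · intro z _
        exact mul_self_mul _ _
    rw [Finset.sum_const, nsmul_one, ZMod.natCast_eq_zero_iff_even] at h0
    exact (Nat.not_even_iff_odd.2 h) h0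

/-- the lemma for `V (-1) = {1, -1}` -/
theorem flip_rigid {y : S.G} (h1 : ∀ z, S.q S.neg z = S.zero → z = 1 ∨ z = S.neg)
    (h0 : S.q S.neg S.neg = S.zero) (hy1 : y ≠ 1) (hy2 : y ≠ S.neg) (hr : Rig S (S.neg * y)) :
    Rig S y := by
  intro v hv
  have hny : S.q S.neg (S.neg * y) = S.q S.neg y := S.q_zero_mul h0
  have hny' : S.q S.neg y ≠ S.zero := fun h => (h1 y h).elim hy1 hy2
  have e1 : S.q (S.neg * v) y = S.q S.neg y := by
    rw [S.qs2, mul_comm, S.q_zero_mul hv, S.qs2]
  have e2 : S.q (S.neg * y) S.neg = S.q S.neg y := by rw [S.qs2, hny]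
  obtain ⟨t, ht1, ht2⟩ := link (e1.trans e2.symm)
  rw [e1] at ht1 ht2
  have h3 : t * S.neg ∈ V S (S.neg * y) := by rw [← q_eq_iff, ht2, e2]
  rcases hr _ h3 with h4 | h4
  · have h5 : t = S.neg := (eq_iff_mul S t S.neg).2 h4
    rw [h5] at ht1
    -- q(-v, -1) = q(-1, y)
    have h6 : S.neg * v * y ∈ V S S.neg := by
      rw [← q_eq_iff, S.qs2, ht1]
    rcases h1 _ h6 with h7 | h7
    · right
      have : v = S.neg * y := by
        rw [eq_iff_mul S]
        rw [← h7]
        ac_rfl
      exact this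
    · exfalso
      have h8 : v = y := by
        rw [eq_iff_mul S]
        calc v * y = S.neg * (S.neg * v * y) := by
              rw [mul_assoc S.neg v y, mul_self_mul]
          _ = 1 := by rw [h7, S.exp_two]
      rw [h8] at hv
      apply hny'
      have h9 := (V S y).mul_mem hv (neg_mul_mem y)
      rw [show y * (S.neg * y) = S.neg * (y * y) by ac_rfl, S.exp_two, mul_one] at h9
      exact mem_V_comm.1 h9
  · have h5 : t = S.neg * y := by
      rw [mul_self_mul] at h4
      rw [← h4, mul_comm t, mul_self_mul]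
    rw [h5] at ht1
    have h6 : S.neg ∈ V S (S.neg * v) := by
      have h7 : S.neg * y * y ∈ V S (S.neg * v) := by rw [← q_eq_iff, ht1, e1]
      rwa [mul_assoc, S.exp_two, mul_one] at h7
    rcases h1 _ (mem_V_comm.1 h6) with h7 | h7
    · exfalso
      have h8 : v = S.neg := ((eq_iff_mul S S.neg v).2 h7).symm
      rw [h8] at hv
      exact hny' (mem_V_comm.1 hv)
    · left
      calc v = S.neg * (S.neg * v) := by rw [mul_self_mul]
        _ = 1 := by rw [h7, S.exp_two]

theorem card_V_three [Finite S.G] {p a b : S.G} (ha : a ∈ V S p) (hb : b ∈ V S p) (ha1 : a ≠ 1)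
    (hb1 : b ≠ 1) (hab : a ≠ b) : 2 < Nat.card (V S p) := by
  have hsub : ({1, a, b} : Set S.G) ⊆ ((V S p : Subgroup S.G) : Set S.G) := by
    intro x hx
    rcases hx with rfl | rfl | rfl
    · exact (V S p).one_mem
    · exact ha
    · exact hb
  have h1 := Set.ncard_le_ncard hsub (Set.toFinite _)
  have h2 : ({1, a, b} : Set S.G).ncard = 3 := by
    rw [Set.ncard_eq_three]
    exact ⟨1, a, b, ha1.symm, hb1.symm, hab, rfl⟩
  rw [h2] at h1
  exact h1

/-- existence of a birigid element -/
theorem exists_bir [Finite S.G] {H : Subgroup S.G} (hH : H ≠ ⊤)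
    (closed : ∀ x ∈ H, x ≠ 1 → ∀ z, S.q x z = S.zero → z ∈ H)
    (hne : ∃ p ∈ H, p ≠ 1 ∧ ∃ y, y ≠ 1 ∧ S.q p y = S.zero) : ∃ z, Bir S z := by
  have hy : ∃ y, y ∉ H := by
    by_contra h
    push Not at h
    exact hH ((Subgroup.eq_top_iff' H).2 h)
  obtain ⟨y, hy⟩ := hy
  obtain ⟨p, hp, hp1, x, hx1, hx⟩ := hne
  have s : Sit S H p y := ⟨closed, hp, hp1, hy⟩
  have hneg : S.neg ∈ H := s.negH
  have hy1 : y ≠ 1 := fun h => hy (h ▸ H.one_mem)
  have hy2 : y ≠ S.neg := fun h => hy (h ▸ hneg)
  have hny : S.neg * y ∉ H := by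
    intro h
    have := H.mul_mem hneg h
    rw [mul_self_mul] at this
    exact hy this
  by_cases hI : ∃ r ∈ H, r ≠ 1 ∧ r ≠ S.neg ∧ 2 < Nat.card (V S r)
  · obtain ⟨r, hr, hr1, hr2, hk⟩ := hI
    exact ⟨y, hy1, hy2, case_one ⟨closed, hr, hr1, hy⟩ hr2 hk,
      case_one ⟨closed, hr, hr1, hny⟩ hr2 hk⟩
  push Not at hI
  -- all of `H` outside `{1, -1}` is rigid
  have hrig : ∀ r ∈ H, r ≠ 1 → r ≠ S.neg → Rig S r := by
    intro r hr hr1 hr2 w hw
    by_contra hc
    push Not at hc
    have h1 : S.neg * r ≠ 1 := fun h => hr2 ((eq_iff_mul S S.neg r).2 h).symm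
    have h2 := card_V_three (show w ∈ V S r from hw) (neg_mul_mem r) hc.1 h1 hc.2
    exact absurd (hI r hr hr1 hr2) (by omega)
  by_cases hII : ∃ r ∈ H, r ≠ 1 ∧ r ≠ S.neg
  · obtain ⟨r, hr, hr1, hr2⟩ := hII
    refine ⟨r, hr1, hr2, hrig r hr hr1 hr2, hrig _ (H.mul_mem hneg hr) ?_ ?_⟩
    · intro h
      exact hr2 ((eq_iff_mul S S.neg r).2 h).symm
    · intro h
      apply hr1
      have : S.neg * (S.neg * r) = S.neg * S.neg := by rw [h]
      rwa [mul_self_mul, S.exp_two] at this
  push Not at hII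
  -- `H = {1, -1}`
  have hpn : p = S.neg := hII p hp hp1
  have hxn : x = S.neg := hII x (closed p hp hp1 x hx) hx1
  rw [hpn] at hx s
  rw [hxn] at hx
  have hneg1 : S.neg ≠ 1 := hpn ▸ hp1
  have hV : ∀ z, S.q S.neg z = S.zero → z = 1 ∨ z = S.neg := by
    intro z hz
    by_cases h1 : z = 1
    · exact Or.inl h1
    · exact Or.inr (hII z (closed S.neg hneg hneg1 z hz) h1)
  have hfin : Rig S y ∨ Rig S (S.neg * y) := by
    classical
    letI := Fintype.ofFinite S.G
    have hk : 2 ≤ Nat.card (V S S.neg) := by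
      have hnt : Nontrivial (V S S.neg) := ⟨⟨1, (V S _).one_mem⟩, ⟨S.neg, hx⟩, fun h =>
        hneg1 (congrArg Subtype.val h).symm⟩
      exact Finite.one_lt_card
    rcases rule3 s hk with h | h
    · exact Or.inl (h y rfl)
    · by_contra hc
      push Not at hc
      have h0 : Finset.univ.filter (fun z : S.G => S.q S.neg z = S.q S.neg y ∧ Rig S z) = ∅ := by
        rw [Finset.filter_eq_empty_iff]
        rintro z - ⟨h1, h2⟩
        have h3 : z * y ∈ V S S.neg := q_eq_iff.1 h1
        rcases hV _ h3 with h4 | h4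
        · rw [(eq_iff_mul S z y).2 h4] at h2
          exact hc.1 h2
        · have h5 : z = S.neg * y := by
            rw [← h4, mul_comm, mul_comm z, mul_self_mul]
          rw [h5] at h2
          exact hc.2 h2
      rw [h0, Finset.card_empty] at h
      exact absurd h (by decide)
  rcases hfin with h | h
  · refine ⟨y, hy1, hy2, h, ?_⟩
    refine flip_rigid hV hx ?_ ?_ ?_
    · intro h1
      exact hny (h1 ▸ H.one_mem)
    · intro h1
      apply hny
      rw [h1]
      exact hneg
    · rw [mul_self_mul]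
      exact h
  · exact ⟨y, hy1, hy2, flip_rigid hV hx hy1 hy2 h, h⟩

end Pool.Agent.ETCC
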