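import Pool.Agent.ETCC.Exist

/-!
# A structure with a birigid element is a group extension (helper29)
-/

set_option autoImplicit false

namespace Pool.Agent.ETCC

open QS

variable {S : QStruct}

theorem not_rig {d : S.G} (h : ¬ Rig S d) : ∃ x ∈ V S d, x ≠ 1 ∧ x ≠ S.neg * d := by
  unfold Rig at h
  push Not at h
  exact h

/-- for `d` outside `{1, -1, z, -z}` one of `d`, `-z d` is rigid -/
theorem half {z d : S.G} (hz : Bir S z) (h1 : d ≠ 1) (h2 : d ≠ S.neg) (h3 : d ≠ z)
    (h4 : d ≠ S.neg * z) : Rig S d ∨ Rig S (S.neg * z * d) := by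
  by_contra hc
  push Not at hc
  obtain ⟨x, hx, hx1, hx2⟩ := not_rig hc.1
  obtain ⟨y, hy, hy1, hy2⟩ := not_rig hc.2
  have disj : ∀ w, w ∈ V S d → w ∈ V S (S.neg * z * d) → w = 1 := by
    intro w hw hw'
    have a1 : S.neg * z * d * d ∈ V S w := (V S w).mul_mem (mem_V_comm.1 hw') (mem_V_comm.1 hw)
    rw [mul_assoc (S.neg * z), S.exp_two, mul_one] at a1
    rcases hz.r2 w (mem_V_comm.1 a1) with h | h
    · exact h
    · exfalso
      rw [mul_self_mul] at h
      rw [h] at hw
      rcases hz.r1 d (mem_V_comm.1 hw) with h' | h'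
      · exact h1 h'
      · exact h4 h'
  have nd : S.neg * d ≠ 1 := fun h => h2 ((eq_iff_mul S S.neg d).2 h).symm
  have nzd : S.neg * (S.neg * z * d) = z * d := by
    rw [show S.neg * (S.neg * z * d) = S.neg * (S.neg * (z * d)) by ac_rfl, mul_self_mul]
  have nzd1 : S.neg * (S.neg * z * d) ≠ 1 := by
    rw [nzd]
    exact fun h => h3 ((eq_iff_mul S z d).2 h).symm
  have hA : ∃ a ∈ V S d, a ∉ V S (S.neg * z * d) ∧ S.neg * z * a ∉ V S (S.neg * z * d) := by
    by_contra hno
    push Not at hno
    have b1 := hno x hx (fun h => hx1 (disj x hx h))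
    have b2 := hno (S.neg * d) (neg_mul_mem d) (fun h => nd (disj _ (neg_mul_mem d) h))
    have b3 := (V S _).mul_mem b1 b2
    rw [show S.neg * z * x * (S.neg * z * (S.neg * d)) = S.neg * z * (S.neg * z) *
      (x * (S.neg * d)) by ac_rfl, S.exp_two, one_mul] at b3
    exact hx2 ((eq_iff_mul S _ _).2 (disj _ ((V S d).mul_mem hx (neg_mul_mem d)) b3))
  have hB : ∃ b ∈ V S (S.neg * z * d), b ∉ V S d ∧ S.neg * z * b ∉ V S d := by
    by_contra hno
    push Not at hno
    have b1 := hno y hy (fun h => hy1 (disj y h hy))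
    have b2 := hno _ (neg_mul_mem (S.neg * z * d)) (fun h => nzd1 (disj _ h (neg_mul_mem _)))
    have b3 := (V S _).mul_mem b1 b2
    rw [show S.neg * z * y * (S.neg * z * (S.neg * (S.neg * z * d))) = S.neg * z * (S.neg * z) *
      (y * (S.neg * (S.neg * z * d))) by ac_rfl, S.exp_two, one_mul] at b3
    exact hy2 ((eq_iff_mul S _ _).2 (disj _ b3 ((V S _).mul_mem hy (neg_mul_mem _))))
  obtain ⟨a, ha, ha1, ha2⟩ := hA
  obtain ⟨b, hb, hb1, hb2⟩ := hB
  have hex : ∃ s u : S.G, S.q s u = S.q z d := ⟨z, d, rfl⟩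
  have hab : a * b ∈ Gb (S.q z d) hex := by
    refine (Gb _ hex).mul_mem ⟨d, ⟨z, S.qs2 _ _⟩, ha⟩ ⟨S.neg * z * d, ⟨z, ?_⟩, hb⟩
    rw [S.qs2, S.q_neg_mul]
  obtain ⟨h, hh, z', hz', h0⟩ := cover (p := z) (y := d) rfl hab
  have hz'' : z' = d ∨ z' = S.neg * z * d := by
    rw [q_eq_iff] at hz'
    rcases hz.r1 _ hz' with h | h
    · left
      exact (eq_iff_mul S z' d).2 h
    · right
      calc z' = (z' * d) * d := by rw [mul_assoc, S.exp_two, mul_one]
        _ = _ := by rw [h]
  have h0' : a * b * h ∈ V S z' := mem_V_comm.1 h0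
  rcases hz.r1 h hh with hh' | hh'
  · rw [hh', mul_one] at h0'
    rcases hz'' with h5 | h5
    · rw [h5] at h0'
      have := (V S d).mul_mem ha h0'
      rw [mul_self_mul] at this
      exact hb1 this
    · rw [h5] at h0'
      have := (V S _).mul_mem hb h0'
      rw [mul_comm a b, mul_self_mul] at this
      exact ha1 this
  · rw [hh'] at h0'
    rcases hz'' with h5 | h5
    · rw [h5] at h0'
      have := (V S d).mul_mem ha h0'
      rw [show a * (a * b * (S.neg * z)) = a * (a * (S.neg * z * b)) by ac_rfl,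
        mul_self_mul] at this
      exact hb2 this
    · rw [h5] at h0'
      have := (V S _).mul_mem hb h0'
      rw [show b * (a * b * (S.neg * z)) = b * (b * (S.neg * z * a)) by ac_rfl,
        mul_self_mul] at this
      exact ha2 this

/-- the dichotomy -/
theorem dich {z d : S.G} (hz : Bir S z) (h1 : d ≠ 1) (h2 : d ≠ S.neg) (h3 : d ≠ z)
    (h4 : d ≠ S.neg * z) : Bir S d ∨ Bir S (z * d) := by
  have n1 : S.neg * d ≠ 1 := fun h => h2 ((eq_iff_mul S S.neg d).2 h).symm
  have n2 : S.neg * d ≠ S.neg := by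
    intro h
    apply h1
    rw [← mul_self_mul S.neg d, h, S.exp_two]
  have n3 : S.neg * d ≠ z := by
    intro h
    apply h4
    rw [← h, mul_self_mul]
  have n4 : S.neg * d ≠ S.neg * z := fun h => h3 (mul_left_cancel h)
  have A1 := half hz h1 h2 h3 h4
  have A2 := half hz n1 n2 n3 n4
  have A3 := half hz.negz h1 h2 h4 (by rw [mul_self_mul]; exact h3)
  have A4 := half hz.negz n1 n2 n4 (by rw [mul_self_mul]; exact n3)
  rw [show S.neg * z * (S.neg * d) = S.neg * (S.neg * (z * d)) by ac_rfl, mul_self_mul] at A2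
  rw [mul_self_mul] at A3 A4
  rw [show z * (S.neg * d) = S.neg * (z * d) by ac_rfl] at A4
  rw [show S.neg * z * d = S.neg * (z * d) by ac_rfl] at A1
  by_cases c1 : Rig S d
  · by_cases c2 : Rig S (S.neg * d)
    · exact Or.inl ⟨h1, h2, c1, c2⟩
    · right
      refine ⟨fun h => h3 ((eq_iff_mul S z d).2 h).symm, fun h => h4 ?_, A2.resolve_left c2,
        A4.resolve_left c2⟩
      rw [← h, mul_comm z d, mul_assoc, S.exp_two, mul_one]
  · right
    refine ⟨fun h => h3 ((eq_iff_mul S z d).2 h).symm, fun h => h4 ?_, A3.resolve_left c1,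
      A1.resolve_left c1⟩
    rw [← h, mul_comm z d, mul_assoc, S.exp_two, mul_one]

/-- the basic part: `1`, `-1` and the elements which are not birigid -/
def Bas (S : QStruct) : Subgroup S.G where
  carrier := {x | ¬ Bir S x}
  one_mem' := fun h => h.n1 rfl
  inv_mem' := by
    intro x hx
    rw [inv_eq S x]
    exact hx
  mul_mem' := by
    intro x y hx hy hu
    by_cases h1 : x = 1
    · rw [h1, one_mul] at hu
      exact hy hu
    by_cases h2 : x = S.neg
    · rw [h2] at hu
      have := hu.negz
      rw [mul_self_mul] at this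
      exact hy this
    by_cases h3 : x = x * y
    · rw [← h3] at hu
      exact hx hu
    by_cases h4 : x = S.neg * (x * y)
    · have := hu.negz
      rw [← h4] at this
      exact hx this
    rcases dich hu h1 h2 h3 h4 with h | h
    · exact hx h
    · rw [show x * y * x = x * (x * y) by ac_rfl, mul_self_mul] at h
      exact hy h

/-- a subgroup of index two which contains the basic part -/
theorem exists_T [Finite S.G] {z : S.G} (hz : Bir S z) : ∃ T : Subgroup S.G, z ∉ T ∧
    (∀ x, x ∉ T → Bir S x) ∧ ∀ x y, x ∉ T → y ∉ T → x * y ∈ T := by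
  have hfin : Finite (Subgroup S.G) := inferInstance
  obtain ⟨T, hT1, hT2⟩ := Set.Finite.exists_le_maximal
    (Set.toFinite {K : Subgroup S.G | Bas S ≤ K ∧ z ∉ K})
    (show Bas S ∈ {K : Subgroup S.G | Bas S ≤ K ∧ z ∉ K} from ⟨le_rfl, fun h => h hz⟩)
  have hzT : z ∉ T := hT2.prop.2
  have key : ∀ g, g ∉ T → z * g ∈ T := by
    intro g hg
    let T' : Subgroup S.G :=
      { carrier := {x | x ∈ T ∨ x * g ∈ T}
        one_mem' := Or.inl T.one_mem
        inv_mem' := by
          intro x hx
          rw [inv_eq S x]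
          exact hx
        mul_mem' := by
          rintro x y (hx | hx) (hy | hy)
          · exact Or.inl (T.mul_mem hx hy)
          · right
            have := T.mul_mem hx hy
            rwa [← mul_assoc] at this
          · right
            have := T.mul_mem hx hy
            rwa [show x * g * y = x * y * g by ac_rfl] at this
          · left
            have := T.mul_mem hx hy
            rwa [show x * g * (y * g) = x * y * (g * g) by ac_rfl, S.exp_two, mul_one] at this }
    have hle : T ≤ T' := fun x hx => Or.inl hx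
    by_cases h : z ∈ T'
    · rcases h with h | h
      · exact absurd h hzT
      · exact h
    · exfalso
      have h1 : T' ≤ T := hT2.le_of_ge ⟨hT2.prop.1.trans hle, h⟩ hle
      apply hg
      apply h1
      right
      rw [S.exp_two]
      exact T.one_mem
  refine ⟨T, hzT, ?_, ?_⟩
  · intro x hx
    by_contra h
    exact hx (hT2.prop.1 h)
  · intro x y hx hy
    have := T.mul_mem (key x hx) (key y hy)
    rwa [show z * x * (z * y) = z * z * (x * y) by ac_rfl, S.exp_two, one_mul] at this

end Pool.Agent.ETCC
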