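import Pool.Agent.ETCC.Count2

/-!
# Closed subgroups of quaternionic structures: parity, existence of birigid elements (helper29)
-/

set_option autoImplicit false

namespace Pool.Agent.ETCC

open QS

variable {S : QStruct}

/-- `x` is rigid in the sense `V x = {1, -x}` -/
def Rig (S : QStruct) (x : S.G) : Prop := ∀ z, S.q x z = S.zero → z = 1 ∨ z = S.neg * x

theorem card_V_pow [Finite S.G] (K : Subgroup S.G) : ∃ n : ℕ, Nat.card K = 2 ^ n := by
  have hp : IsPGroup 2 S.G := fun g => ⟨1, by rw [pow_one, pow_two, S.exp_two]⟩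
  exact (IsPGroup.iff_card).1 (hp.to_subgroup K)

open Classical in
theorem filter_card [Fintype S.G] (K : Subgroup S.G) :
    (Finset.univ.filter fun a : S.G => a ∈ K).card = Nat.card K := by
  rw [Nat.card_eq_fintype_card, Fintype.card_subtype]

/-- rigid means two elements -/
theorem rig_iff [Finite S.G] {z : S.G} (hz : S.neg * z ≠ 1) :
    Rig S z ↔ Nat.card (V S z) = 2 := by
  have h1 : (⟨1, (V S z).one_mem⟩ : V S z) ≠ ⟨S.neg * z, neg_mul_mem z⟩ := by
    intro h
    exact hz (congrArg Subtype.val h).symm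
  constructor
  · intro h
    rw [Nat.card_eq_two_iff]
    refine ⟨_, _, h1, ?_⟩
    ext ⟨w, hw⟩
    simp only [Set.mem_insert_iff, Set.mem_singleton_iff, Set.mem_univ, iff_true, Subtype.mk.injEq]
    exact h w hw
  · intro h w hw
    rw [Nat.card_eq_two_iff] at h
    obtain ⟨a, b, hab, hu⟩ := h
    have m : ∀ c : V S z, c = a ∨ c = b := by
      intro c
      have : c ∈ ({a, b} : Set (V S z)) := hu ▸ Set.mem_univ c
      simpa using this
    have m1 := m ⟨1, (V S z).one_mem⟩
    have m2 := m ⟨S.neg * z, neg_mul_mem z⟩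
    have m3 := m ⟨w, hw⟩
    rcases m1 with m1 | m1 <;> rcases m2 with m2 | m2
    · exact absurd (m1.trans m2.symm) h1
    · rcases m3 with m3 | m3
      · left
        exact congrArg Subtype.val (m3.trans m1.symm)
      · right
        exact congrArg Subtype.val (m3.trans m2.symm)
    · rcases m3 with m3 | m3
      · right
        exact congrArg Subtype.val (m3.trans m2.symm)
      · left
        exact congrArg Subtype.val (m3.trans m1.symm)
    · exact absurd (m1.trans m2.symm) h1

/-- R2 -/
theorem rule2 [Finite S.G] {H : Subgroup S.G} {p y : S.G} (s : Sit S H p y) (hA : Rig S y)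
    (hk : 2 < Nat.card (V S p)) : Rig S (S.neg * p * y) := by
  have hpy : S.neg * p * y ∉ H := by
    intro h
    have h1 := H.mul_mem (H.mul_mem s.negH s.hp) h
    rw [mul_self_mul] at h1
    exact s.hy h1
  have hb : ∃ a u : S.G, S.q a u = S.q y p := ⟨y, p, rfl⟩
  have e0 : S.q y (S.neg * p * y) = S.q y p := by
    rw [q_eq_iff, show S.neg * p * y * p = (p * p) * (S.neg * y) by ac_rfl, S.exp_two, one_mul]
    exact neg_mul_mem y
  have small : ∀ w, w ∈ V S (S.neg * p * y) → w ∈ H → w = 1 := by
    intro w hw hwH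
    exact s.out hpy hwH (mem_V_comm.1 hw)
  have inG : ∀ v ∈ V S p, ∀ w ∈ V S (S.neg * p * y), v * w ∈ Gb (S.q y p) hb := by
    intro v hv w hw
    refine (Gb _ hb).mul_mem ⟨p, ⟨y, S.qs2 _ _⟩, hv⟩ ⟨S.neg * p * y, ⟨y, ?_⟩, hw⟩
    rw [S.qs2, e0]
  -- the four cases
  have four : ∀ v ∈ V S p, v ≠ 1 → ∀ w ∈ V S (S.neg * p * y), w ≠ 1 →
      S.neg * y * w ∈ V S p ∨ S.neg * y * v ∈ V S (S.neg * p * y) := by
    intro v hv hv1 w hw hw1
    obtain ⟨h, hh, z, hz, h0⟩ := cover (p := y) (y := p) rfl (inG v hv w hw)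
    have hz' : z = p ∨ z = S.neg * p * y := by
      rw [q_eq_iff] at hz
      rcases hA _ hz with h1 | h1
      · left
        exact (eq_iff_mul S z p).2 h1
      · right
        calc z = (z * p) * p := by rw [mul_assoc, S.exp_two, mul_one]
          _ = S.neg * p * y := by
            rw [h1]
            ac_rfl
    have h0' : v * w * h ∈ V S z := mem_V_comm.1 h0
    rcases hA _ hh with h1 | h1
    · rw [h1, mul_one] at h0'
      rcases hz' with h2 | h2
      · exfalso
        rw [h2] at h0'
        have h3 := (V S p).mul_mem hv h0'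
        rw [mul_self_mul] at h3
        exact hw1 (small w hw (s.VpH h3))
      · exfalso
        rw [h2] at h0'
        have h3 := (V S _).mul_mem h0' hw
        rw [show v * w * w = v from by rw [mul_assoc, S.exp_two, mul_one]] at h3
        exact hv1 (small v h3 (s.VpH hv))
    · rw [h1] at h0'
      rcases hz' with h2 | h2
      · left
        rw [h2] at h0'
        have h3 := (V S p).mul_mem hv h0'
        rwa [show v * (v * w * (S.neg * y)) = (v * v) * (S.neg * y * w) by ac_rfl, S.exp_two,
          one_mul] at h3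
      · right
        rw [h2] at h0'
        have h3 := (V S _).mul_mem h0' hw
        rwa [show v * w * (S.neg * y) * w = (w * w) * (S.neg * y * v) by ac_rfl, S.exp_two,
          one_mul] at h3
  intro w hw
  by_contra hc
  push Not at hc
  obtain ⟨hw1, hw2⟩ := hc
  have hw' : w ∈ V S (S.neg * p * y) := hw
  -- a `v` without the second alternative
  have hv : ∃ v ∈ V S p, v ≠ 1 ∧ S.neg * y * v ∉ V S (S.neg * p * y) := by
    by_contra hno
    push Not at hno
    have hle : Nat.card (V S p) ≤ 2 := by
      by_cases h1 : ∃ v ∈ V S p, v ≠ 1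
      · obtain ⟨v, hv, hv1⟩ := h1
        have hsub : ((V S p : Subgroup S.G) : Set S.G) ⊆ {1, v} := by
          intro v' hv'
          by_cases h2 : v' = 1
          · left
            exact h2
          · right
            have h3 := (V S _).mul_mem (hno v hv hv1) (hno v' hv' h2)
            rw [show S.neg * y * v * (S.neg * y * v') = (S.neg * S.neg) * (y * y) * (v * v') by
              ac_rfl, S.exp_two, S.exp_two, one_mul, one_mul] at h3
            have h4 := small _ h3 (H.mul_mem (s.VpH hv) (s.VpH hv'))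
            exact ((eq_iff_mul S v v').2 h4).symm
        calc Nat.card (V S p) = Set.ncard ((V S p : Subgroup S.G) : Set S.G) := rfl
          _ ≤ Set.ncard ({1, v} : Set S.G) := Set.ncard_le_ncard hsub (Set.toFinite _)
          _ ≤ 2 := by
            have h9 := Set.ncard_insert_le (1 : S.G) {v}
            rwa [Set.ncard_singleton] at h9
      · push Not at h1
        have hsub : ((V S p : Subgroup S.G) : Set S.G) ⊆ {1} := fun v hv => h1 v hv
        calc Nat.card (V S p) = Set.ncard ((V S p : Subgroup S.G) : Set S.G) := rfl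
          _ ≤ Set.ncard ({1} : Set S.G) := Set.ncard_le_ncard hsub (Set.toFinite _)
          _ ≤ 2 := by
            rw [Set.ncard_singleton]
            omega
    omega
  obtain ⟨v, hv, hv1, hv2⟩ := hv
  have a1 : S.neg * y * w ∈ V S p := (four v hv hv1 w hw' hw1).resolve_right hv2
  -- the second element
  have hr : S.neg * (S.neg * p * y) ∈ V S (S.neg * p * y) := neg_mul_mem _
  have hw3 : w * (S.neg * (S.neg * p * y)) ∈ V S (S.neg * p * y) := (V S _).mul_mem hw' hr
  have hw4 : w * (S.neg * (S.neg * p * y)) ≠ 1 := fun h => hw2 ((eq_iff_mul S _ _).2 h)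
  have a2 : S.neg * y * (w * (S.neg * (S.neg * p * y))) ∈ V S p :=
    (four v hv hv1 _ hw3 hw4).resolve_right hv2
  have a3 := (V S p).mul_mem a1 a2
  have e3 : S.neg * y * w * (S.neg * y * (w * (S.neg * (S.neg * p * y)))) = p * y := by
    calc S.neg * y * w * (S.neg * y * (w * (S.neg * (S.neg * p * y))))
        = (S.neg * S.neg) * (S.neg * S.neg) * (y * y) * (w * w) * (p * y) := by ac_rfl
      _ = p * y := by simp only [S.exp_two, one_mul]
  rw [e3] at a3
  have a4 := H.mul_mem s.hp (s.VpH a3)
  rw [mul_self_mul] at a4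
  exact s.hy a4

open Classical in
/-- R3 -/
theorem rule3 [Fintype S.G] {H : Subgroup S.G} {p y : S.G} (s : Sit S H p y)
    (hk : 2 ≤ Nat.card (V S p)) :
    (∀ z, S.q p z = S.q p y → Rig S z) ∨
    Odd (Finset.univ.filter (fun z : S.G => S.q p z = S.q p y ∧ Rig S z)).card := by
  have hb : ∃ a u : S.G, S.q a u = S.q p y := ⟨p, y, rfl⟩
  obtain ⟨m, hm1, hm2⟩ := count s hb
  rw [filter_card (V S p)] at hm1 hm2
  have hG := filter_card (Gb (S.q p y) hb)
  rw [hG] at hm2
  obtain ⟨a, ha⟩ := card_V_pow (V S p)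
  obtain ⟨c, hc⟩ := card_V_pow (Gb (S.q p y) hb)
  rw [ha] at hm1 hm2 hk
  rw [hc] at hm2
  have hac : a ≤ c := by
    by_contra h
    push Not at h
    have h1 : 2 ^ c < 2 ^ a := Nat.pow_lt_pow_right (by norm_num) h
    have h2 : 2 ^ a ≤ 2 ^ c := by
      rw [hm2]
      nlinarith [Nat.zero_le (m * 2 ^ a)]
    omega
  obtain ⟨e, rfl⟩ := Nat.exists_eq_add_of_le hac
  have hme : m + 2 = 2 ^ e := by
    have h1 : 2 ^ a * 2 ^ e = 2 ^ a * (m + 2) := by
      rw [← pow_add, hm2]
      ring
    exact (Nat.eq_of_mul_eq_mul_left (by positivity) h1).symm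
  have ha1 : 1 ≤ a := by
    by_contra h
    have : a = 0 := by omega
    subst this
    norm_num at hk
  set N := Finset.univ.filter (fun z : S.G => S.q p z = S.q p y) with hN
  have hcN : N.card = 2 ^ a := by
    rw [← ha, ← filter_card (V S p)]
    refine Finset.card_bij (fun z _ => y * z) ?_ ?_ ?_
    · intro z hz
      rw [hN, Finset.mem_filter] at hz
      rw [Finset.mem_filter]
      exact ⟨Finset.mem_univ _, s.zN hz.2⟩
    · intro a _ b _ h
      exact mul_left_cancel h
    · intro h hh
      rw [Finset.mem_filter] at hh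
      refine ⟨y * h, ?_, mul_self_mul y h⟩
      rw [hN, Finset.mem_filter, q_eq_mul hh.2]
      exact ⟨Finset.mem_univ _, rfl⟩
  have hzne : ∀ z ∈ N, S.neg * z ≠ 1 := by
    intro z hz h
    rw [hN, Finset.mem_filter] at hz
    apply s.zH hz.2
    have : z = S.neg := ((eq_iff_mul S S.neg z).2 h).symm
    rw [this]
    exact s.negH
  -- the cardinalities
  have hcard : ∀ z ∈ N, (Finset.univ.filter fun a : S.G => a ∈ V S z).card = 2 ∨
      ∃ j, (Finset.univ.filter fun a : S.G => a ∈ V S z).card = 4 * j ∧ 1 ≤ j := by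
    intro z hz
    rw [filter_card (V S z)]
    obtain ⟨j, hj⟩ := card_V_pow (V S z)
    have hj1 : 1 < Nat.card (V S z) := by
      have : Nontrivial (V S z) := ⟨⟨1, (V S z).one_mem⟩, ⟨S.neg * z, neg_mul_mem z⟩, fun h =>
        hzne z hz (congrArg Subtype.val h).symm⟩
      exact Finite.one_lt_card
    rw [hj] at hj1 ⊢
    rcases Nat.lt_or_ge j 2 with h | h
    · interval_cases j
      · norm_num at hj1
      · left
        norm_num
    · right
      obtain ⟨i, rfl⟩ := Nat.exists_eq_add_of_le h
      refine ⟨2 ^ i, by rw [pow_add]; norm_num, Nat.one_le_two_pow⟩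
  have hge : ∀ z ∈ N, 2 ≤ (Finset.univ.filter fun a : S.G => a ∈ V S z).card := by
    intro z hz
    rcases hcard z hz with h | ⟨j, h, h1⟩ <;> omega
  by_cases he : e ≤ 1
  · left
    have hm0 : m = 0 := by
      interval_cases e
      · rw [pow_zero] at hme
        omega
      · rw [pow_one] at hme
        omega
    rw [hm0, add_zero] at hm1
    have hsum : ∑ z ∈ N, (Finset.univ.filter fun a : S.G => a ∈ V S z).card = ∑ z ∈ N, 2 := by
      rw [hm1, Finset.sum_const, hcN, smul_eq_mul, mul_comm]
    have hall := (Finset.sum_eq_sum_iff_of_le hge).1 hsum.symm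
    intro z hz
    have hzN : z ∈ N := by
      rw [hN, Finset.mem_filter]
      exact ⟨Finset.mem_univ _, hz⟩
    rw [rig_iff (hzne z hzN), ← filter_card (V S z)]
    exact (hall z hzN).symm
  · right
    push Not at he
    obtain ⟨i, rfl⟩ := Nat.exists_eq_add_of_le (show 2 ≤ e from he)
    have h4 : m % 4 = 2 := by
      rw [pow_add] at hme
      have : 1 ≤ 2 ^ i := Nat.one_le_two_pow
      omega
    have hfil : Finset.univ.filter (fun z : S.G => S.q p z = S.q p y ∧ Rig S z) =
        N.filter (fun z => Rig S z) := by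
      rw [hN, Finset.filter_filter]
    rw [hfil]
    -- split the sum
    rw [← Finset.sum_filter_add_sum_filter_not N (fun z => Rig S z)] at hm1
    have s1 : ∑ z ∈ N.filter (fun z => Rig S z),
        (Finset.univ.filter fun a : S.G => a ∈ V S z).card =
        (N.filter (fun z => Rig S z)).card * 2 := by
      rw [Finset.sum_congr rfl (g := fun _ => 2), Finset.sum_const, smul_eq_mul]
      intro z hz
      rw [Finset.mem_filter] at hz
      rw [filter_card (V S z)]
      exact (rig_iff (hzne z hz.1)).1 hz.2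
    have s2 : 4 ∣ ∑ z ∈ N.filter (fun z => ¬ Rig S z),
        (Finset.univ.filter fun a : S.G => a ∈ V S z).card := by
      refine Finset.dvd_sum fun z hz => ?_
      rw [Finset.mem_filter] at hz
      rcases hcard z hz.1 with h | ⟨j, h, -⟩
      · exfalso
        rw [filter_card (V S z)] at h
        exact hz.2 ((rig_iff (hzne z hz.1)).2 h)
      · exact ⟨j, h⟩
    rw [s1] at hm1
    obtain ⟨r, hr⟩ := s2
    rw [hr] at hm1
    obtain ⟨a', rfl⟩ := Nat.exists_eq_add_of_le ha1
    rw [pow_add, pow_one] at hm1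
    rw [Nat.odd_iff]
    omega

end Pool.Agent.ETCC
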