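import Pool.Agent.ETCC.Extn

/-!
# A structure with a birigid element is a group extension: the isomorphism (helper29)
-/

set_option autoImplicit false

namespace Pool.Agent.ETCC

open QS

variable {S : QStruct}

/-- the data: an index two subgroup outside which everything is birigid -/
structure Dat (S : QStruct) (T : Subgroup S.G) (t : S.G) : Prop where
  ht : t ∉ T
  bir : ∀ x, x ∉ T → Bir S x
  two : ∀ x y, x ∉ T → y ∉ T → x * y ∈ T

namespace Dat

variable {T : Subgroup S.G} {t : S.G}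

theorem negT (D : Dat S T t) : S.neg ∈ T := by
  by_contra h
  exact (D.bir _ h).n2 rfl

theorem at_nT (D : Dat S T t) {a : S.G} (ha : a ∈ T) : a * t ∉ T := by
  intro h
  have := T.mul_mem ha h
  rw [mul_self_mul] at this
  exact D.ht this

/-- annihilators of elements outside `T` meet `T` trivially -/
theorem triv (D : Dat S T t) {x g : S.G} (hx : x ∉ T) (hg : g ∈ T) (h : g ∈ V S x) : g = 1 := by
  rcases (D.bir x hx).r1 g h with h1 | h1
  · exact h1
  · exfalso
    apply hx
    rw [h1] at hg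
    have := T.mul_mem D.negT hg
    rwa [mul_self_mul] at this

/-- slots outside `T` determine the other slot in `T` -/
theorem cancel (D : Dat S T t) {x g g' : S.G} (hx : x ∉ T) (hg : g ∈ T) (hg' : g' ∈ T)
    (h : S.q x g = S.q x g') : g = g' :=
  (eq_iff_mul S g g').2 (D.triv hx (T.mul_mem hg hg') (q_eq_iff.1 h))

theorem qs4T (D : Dat S T t) {a b c d : S.G} (ha : a ∈ T) (hb : b ∈ T) (hc : c ∈ T)
    (h : S.q a b = S.q c d) : ∃ x ∈ T, S.q a b = S.q a x ∧ S.q c d = S.q c x := by
  obtain ⟨x, h1, h2⟩ := S.qs4 a b c d h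
  by_cases hx : x ∈ T
  · exact ⟨x, hx, h1, h2⟩
  · have h3 : S.q x a = S.q x c := by
      rw [S.qs2 x a, S.qs2 x c, ← h1, ← h2, h]
    have h4 := D.cancel hx ha hc h3
    refine ⟨b, hb, rfl, ?_⟩
    rw [← h, h4]

/-- the first criterion -/
theorem crit1 (D : Dat S T t) {a a' g g' : S.G} (ha : a ∈ T) (ha' : a' ∈ T) (hg : g ∈ T)
    (hg' : g' ∈ T) :
    S.q (a * t) g = S.q (a' * t) g' ↔ g = g' ∧ S.q a g = S.q a' g' := by
  have e : a * t * (a' * t) = a * a' := by
    rw [show a * t * (a' * t) = a * a' * (t * t) by ac_rfl, S.exp_two, mul_one]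
  constructor
  · intro h
    have hgg : g = g' := by
      obtain ⟨x, h1, h2⟩ := S.qs4 _ _ _ _ h
      by_cases hx : x ∈ T
      · rw [D.cancel (D.at_nT ha) hg hx h1, D.cancel (D.at_nT ha') hg' hx h2]
      · have h3 : a * t * (a' * t) ∈ V S x := by
          rw [← q_eq_iff, S.qs2 x, S.qs2 x, ← h1, ← h2, h]
        rw [e] at h3
        have h4 : a = a' := (eq_iff_mul S a a').2 (D.triv hx (T.mul_mem ha ha') h3)
        rw [h4] at h
        exact D.cancel (D.at_nT ha') hg hg' h
    refine ⟨hgg, ?_⟩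
    rw [← hgg] at h ⊢
    have h3 : a * t * (a' * t) ∈ V S g := by
      rw [← q_eq_iff, S.qs2 g, S.qs2 g, h]
    rw [e] at h3
    rw [S.qs2 a, S.qs2 a', q_eq_iff]
    exact h3
  · rintro ⟨rfl, h⟩
    rw [S.qs2 (a * t), S.qs2 (a' * t), q_eq_iff, e, ← q_eq_iff, S.qs2 g, S.qs2 g]
    exact h

/-- the second criterion -/
theorem crit2 (D : Dat S T t) {c d a g : S.G} (hc : c ∈ T) (hd : d ∈ T) (ha : a ∈ T)
    (hg : g ∈ T) : S.q c d = S.q (a * t) g ↔ S.q c d = S.q a g ∧ 1 = g := by
  constructor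
  · intro h
    have hg1 : g = 1 := by
      by_contra hg1
      rw [S.qs2 (a * t)] at h
      obtain ⟨x, h1, h2⟩ := S.qs4 _ _ _ _ h
      by_cases hx : x ∈ T
      · have h3 : a * t * x ∈ V S g := q_eq_iff.1 h2
        have h4 : a * t * x = a * x * t := by ac_rfl
        rw [h4] at h3
        exact hg1 (D.triv (D.at_nT (T.mul_mem ha hx)) hg (mem_V_comm.1 h3))
      · have h3 : S.q x c = S.q x g := by
          rw [S.qs2 x c, S.qs2 x g, ← h1, ← h2, h]
        have h4 := D.cancel hx hc hg h3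
        rw [h4] at h
        have h5 : d * (a * t) ∈ V S g := q_eq_iff.1 h
        rw [← mul_assoc] at h5
        exact hg1 (D.triv (D.at_nT (T.mul_mem hd ha)) hg (mem_V_comm.1 h5))
    rw [hg1, S.q_one] at h ⊢
    exact ⟨h, rfl⟩
  · rintro ⟨h, rfl⟩
    rw [S.q_one] at h ⊢
    exact h

end Dat

/-- the substructure on `T` -/
def sub (S : QStruct) (T : Subgroup S.G) (hneg : S.neg ∈ T)
    (h4 : ∀ a ∈ T, ∀ b ∈ T, ∀ c ∈ T, ∀ d ∈ T, S.q a b = S.q c d →
      ∃ x ∈ T, S.q a b = S.q a x ∧ S.q c d = S.q c x) : QStruct where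
  G := T
  Q := {β : S.Q // ∃ a ∈ T, ∃ b ∈ T, S.q a b = β}
  neg := ⟨S.neg, hneg⟩
  zero := ⟨S.zero, 1, T.one_mem, 1, T.one_mem, S.q_one 1⟩
  q := fun a b => ⟨S.q a b, a, a.2, b, b.2, rfl⟩
  exp_two := fun a => Subtype.ext (S.exp_two a)
  surj := by
    rintro ⟨β, a, ha, b, hb, h⟩
    exact ⟨⟨a, ha⟩, ⟨b, hb⟩, Subtype.ext h⟩
  qs1 := fun a => Subtype.ext (S.qs1 a)
  qs2 := fun a b => Subtype.ext (S.qs2 a b)
  qs3 := by
    intro a b c
    rw [Subtype.mk.injEq, Subtype.mk.injEq]
    exact S.qs3 a b c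
  qs4 := by
    rintro ⟨a, ha⟩ ⟨b, hb⟩ ⟨c, hc⟩ ⟨d, hd⟩ h
    obtain ⟨x, hx, h1, h2⟩ := h4 a ha b hb c hc d hd (congrArg Subtype.val h)
    exact ⟨⟨x, hx⟩, Subtype.ext h1, Subtype.ext h2⟩

section

variable {T : Subgroup S.G} {t : S.G}

/-- the map from `T` times a group of order two -/
def psi (T : Subgroup S.G) (t : S.G) (u : T × Multiplicative (ZMod 2)) : S.G :=
  (u.1 : S.G) * t ^ (Multiplicative.toAdd u.2).val

theorem psi_one (a : T) : psi T t (a, 1) = a := by
  simp [psi]

theorem psi_x (a : T) : psi T t (a, Multiplicative.ofAdd 1) = a * t := by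
  simp [psi, ZMod.val_one]

theorem psi_mul (u v : T × Multiplicative (ZMod 2)) :
    psi T t (u * v) = psi T t u * psi T t v := by
  obtain ⟨a, α⟩ := u
  obtain ⟨b, β⟩ := v
  rcases two_cases α with rfl | rfl <;> rcases two_cases β with rfl | rfl <;>
    simp only [Prod.mk_mul_mk, mul_one, one_mul, x_mul_x, psi_one, psi_x, Subgroup.coe_mul]
  · ac_rfl
  · ac_rfl
  · rw [show (a : S.G) * t * (b * t) = a * b * (t * t) by ac_rfl, S.exp_two, mul_one]

theorem psi_bij (D : Dat S T t) : Function.Bijective (psi T t) := by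
  constructor
  · rintro ⟨a, α⟩ ⟨b, β⟩ h
    rcases two_cases α with rfl | rfl <;> rcases two_cases β with rfl | rfl <;>
      simp only [psi_one, psi_x] at h
    · rw [Subtype.ext h]
    · exact absurd (h ▸ a.2) (D.at_nT b.2)
    · exact absurd (h ▸ b.2) (D.at_nT a.2)
    · rw [Subtype.ext (mul_right_cancel h)]
  · intro g
    by_cases hg : g ∈ T
    · exact ⟨(⟨g, hg⟩, 1), psi_one _⟩
    · refine ⟨(⟨g * t, D.two g t hg D.ht⟩, Multiplicative.ofAdd 1), ?_⟩
      rw [psi_x]
      show g * t * t = g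
      rw [mul_assoc, S.exp_two, mul_one]

/-- the group isomorphism -/
noncomputable def psiEquiv (D : Dat S T t) : T × Multiplicative (ZMod 2) ≃* S.G :=
  MulEquiv.ofBijective (MulHom.mk (psi T t) psi_mul) (psi_bij D)

theorem psiEquiv_apply (D : Dat S T t) (u : T × Multiplicative (ZMod 2)) :
    psiEquiv D u = psi T t u := rfl

/-- the substructure of the data -/
def subD (D : Dat S T t) : QStruct :=
  sub S T D.negT (fun _ ha _ hb _ hc _ _ h => D.qs4T ha hb hc h)

/-- first component of the code -/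
def c1 (D : Dat S T t) (u v : T × Multiplicative (ZMod 2)) : S.Q :=
  (show {β : S.Q // ∃ a ∈ T, ∃ b ∈ T, S.q a b = β} from (extMap (subD D) u v).1).1

/-- second component of the code -/
def c2 (D : Dat S T t) (u v : T × Multiplicative (ZMod 2)) : S.G :=
  (show T from (extMap (subD D) u v).2).1

theorem code_iff (D : Dat S T t) (u v w x : T × Multiplicative (ZMod 2)) :
    extMap (subD D) u v = extMap (subD D) w x ↔ c1 D u v = c1 D w x ∧ c2 D u v = c2 D w x := by
  constructor
  · intro h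
    exact ⟨congrArg (fun z : (subD D).Q × (subD D).G =>
      (show {β : S.Q // ∃ a ∈ T, ∃ b ∈ T, S.q a b = β} from z.1).1) h,
      congrArg (fun z : (subD D).Q × (subD D).G => (show T from z.2).1) h⟩
  · rintro ⟨h1, h2⟩
    exact Prod.ext (Subtype.ext h1) (Subtype.ext h2)

/-- values of the form map: two types -/
theorem types (D : Dat S T t) (u v : T × Multiplicative (ZMod 2)) :
    (∃ c d : T, S.q (psi T t u) (psi T t v) = S.q c d ∧ c1 D u v = S.q c d ∧ c2 D u v = 1) ∨
    (∃ a g : T, S.q (psi T t u) (psi T t v) = S.q (a * t) g ∧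
      c1 D u v = S.q a g ∧ c2 D u v = g) := by
  obtain ⟨a, α⟩ := u
  obtain ⟨b, β⟩ := v
  rcases two_cases α with rfl | rfl
  · rcases two_cases β with rfl | rfl
    · left
      have h := extMap_one_one (subD D) a b
      refine ⟨a, b, ?_, ?_, ?_⟩
      · rw [psi_one, psi_one]
      · exact congrArg (fun z : (subD D).Q × (subD D).G =>
          (show {β : S.Q // ∃ a ∈ T, ∃ b ∈ T, S.q a b = β} from z.1).1) h
      · exact congrArg (fun z : (subD D).Q × (subD D).G => (show T from z.2).1) h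
    · right
      have h := extMap_one_x (subD D) a b
      refine ⟨b, a, ?_, ?_, ?_⟩
      · rw [psi_one, psi_x, S.qs2]
      · rw [S.qs2 b a]
        exact congrArg (fun z : (subD D).Q × (subD D).G =>
          (show {β : S.Q // ∃ a ∈ T, ∃ b ∈ T, S.q a b = β} from z.1).1) h
      · exact congrArg (fun z : (subD D).Q × (subD D).G => (show T from z.2).1) h
  · right
    rcases two_cases β with rfl | rfl
    · have h := extMap_x_one (subD D) a b
      refine ⟨a, b, ?_, ?_, ?_⟩
      · rw [psi_one, psi_x]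
      · exact congrArg (fun z : (subD D).Q × (subD D).G =>
          (show {β : S.Q // ∃ a ∈ T, ∃ b ∈ T, S.q a b = β} from z.1).1) h
      · exact congrArg (fun z : (subD D).Q × (subD D).G => (show T from z.2).1) h
    · have h := extMap_x_x (subD D) a b
      refine ⟨a, (⟨S.neg, D.negT⟩ : T) * a * b, ?_, ?_, ?_⟩
      · rw [psi_x, psi_x]
        show _ = S.q (a * t) (S.neg * a * b)
        rw [← S.q_neg_mul (a * t) (b * t)]
        rw [show S.neg * (↑a * t) * (↑b * t) = S.neg * a * b * (t * t) by ac_rfl, S.exp_two,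
          mul_one]
      · show _ = S.q a (S.neg * a * b)
        rw [S.q_neg_mul]
        exact congrArg (fun z : (subD D).Q × (subD D).G =>
          (show {β : S.Q // ∃ a ∈ T, ∃ b ∈ T, S.q a b = β} from z.1).1) h
      · exact congrArg (fun z : (subD D).Q × (subD D).G => (show T from z.2).1) h

theorem main (D : Dat S T t) (u v w x : T × Multiplicative (ZMod 2)) :
    S.q (psi T t u) (psi T t v) = S.q (psi T t w) (psi T t x) ↔
      extMap (subD D) u v = extMap (subD D) w x := by
  rw [code_iff]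
  rcases types D u v with ⟨c, d, h1, h2, h3⟩ | ⟨a, g, h1, h2, h3⟩ <;>
    rcases types D w x with ⟨c', d', h1', h2', h3'⟩ | ⟨a', g', h1', h2', h3'⟩ <;>
    rw [h1, h2, h3, h1', h2', h3']
  · simp
  · exact D.crit2 c.2 d.2 a'.2 g'.2
  · rw [eq_comm, D.crit2 c'.2 d'.2 a.2 g.2]
    exact and_congr eq_comm eq_comm
  · rw [D.crit1 a.2 a'.2 g.2 g'.2, and_comm]

/-- the extension theorem -/
theorem iso_of_dat (D : Dat S T t) : Iso S (ext (subD D)) := by
  refine ⟨(psiEquiv D).symm, ?_, ?_⟩
  · show (psiEquiv D).symm S.neg = ((⟨S.neg, D.negT⟩ : T), (1 : Multiplicative (ZMod 2)))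
    rw [MulEquiv.symm_apply_eq, psiEquiv_apply]
    exact (psi_one (t := t) (⟨S.neg, D.negT⟩ : T)).symm
  · intro a b c d
    have e : ∀ r : S.G, psi T t ((psiEquiv D).symm r) = r := fun r =>
      (psiEquiv D).apply_symm_apply r
    have h := main D ((psiEquiv D).symm a) ((psiEquiv D).symm b) ((psiEquiv D).symm c)
      ((psiEquiv D).symm d)
    rw [e, e, e, e] at h
    exact h.trans ⟨fun h' => Subtype.ext h', fun h' => congrArg Subtype.val h'⟩

end

/-- a structure with a birigid element is a group extension -/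
theorem ext_of_bir [Finite S.G] {z : S.G} (hz : Bir S z) : ∃ T : QStruct, Iso S (ext T) := by
  obtain ⟨T, h1, h2, h3⟩ := exists_T hz
  exact ⟨subD ⟨h1, h2, h3⟩, iso_of_dat (⟨h1, h2, h3⟩ : Dat S T z)⟩

end Pool.Agent.ETCC
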